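import Pool.Agent.P.MP_029dcd_co.Core

set_option autoImplicit false
open Classical

namespace Pool.Agent.Results.MP_029dcd_co.NearlyAllRich

open CubicStab Finset in
theorem result :
    ∀ k : ℕ, ∀ η : ℝ, 0 < η → ∃ ε : ℝ, 0 < ε ∧
      ∀ A : Finset (ℝ × ℝ),
        (∀ S : Finset (ℝ × ℝ), S ⊆ A → Collinear ℝ (S : Set (ℝ × ℝ)) → S.card ≤ k) →
        (1 - ε) * (A.card : ℝ) ^ 2 ≤
          (((A ×ˢ A).filter (fun q : (ℝ × ℝ) × (ℝ × ℝ) =>
              q.1 ≠ q.2 ∧ ∃ z ∈ A, z ≠ q.1 ∧ z ≠ q.2 ∧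
                Collinear ℝ ({q.1, q.2, z} : Set (ℝ × ℝ)))).card : ℝ) →
        ∃ p : MvPolynomial (Fin 2) ℝ, p ≠ 0 ∧ p.totalDegree ≤ 3 ∧
          (1 - η) * (A.card : ℝ) ≤
            ((A.filter (fun x : ℝ × ℝ => MvPolynomial.eval ![x.1, x.2] p = 0)).card : ℝ) := by
  intro k η hη
  rcases le_or_gt η 1 with hη1 | hη1
  swap
  · refine ⟨1, one_pos, fun A _ _ => ⟨1, one_ne_zero, by simp, ?_⟩⟩
    exact le_trans (mul_nonpos_of_nonpos_of_nonneg (by linarith) (Nat.cast_nonneg _))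
      (Nat.cast_nonneg _)
  obtain ⟨ε, hε, H⟩ := core k η hη hη1
  refine ⟨ε, hε, fun A hk hrich => ?_⟩
  rcases Nat.eq_zero_or_pos A.card with h0 | h0
  · exact ⟨1, one_ne_zero, by simp, by rw [h0]; simp⟩
  obtain ⟨σ, hσ⟩ := exists_shear A
  have hcard : (A.image (sh σ)).card = A.card := card_image_of_injective _ (sh_inj σ)
  set R := (A ×ˢ A).filter (fun q : (ℝ × ℝ) × (ℝ × ℝ) =>
    q.1 ≠ q.2 ∧ ∃ z ∈ A, z ≠ q.1 ∧ z ≠ q.2 ∧ Collinear ℝ ({q.1, q.2, z} : Set (ℝ × ℝ))) with hR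
  have hsd : ((A ×ˢ A) \ R).card + R.card = A.card * A.card := by
    rw [card_sdiff_add_card_eq_card (filter_subset _ _), card_product]
  have hle : ∀ m : ℕ, m ≤ ((A ×ˢ A) \ R).card → (m : ℝ) ≤ ε * (A.card : ℝ) ^ 2 := by
    intro m hm
    have h1 : (m : ℝ) + R.card ≤ A.card * A.card := by exact_mod_cast (by omega)
    nlinarith
  obtain ⟨f, hf0, hf3, hf⟩ := H (A.image (sh σ)) (by
      intro P hP Q hQ e
      obtain ⟨P, hP', rfl⟩ := mem_image.1 (mem_coe.1 hP)
      obtain ⟨Q, hQ', rfl⟩ := mem_image.1 (mem_coe.1 hQ)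
      rw [hσ P hP' Q hQ' e]) (by
      intro v
      have h1 : thru (A.image (sh σ)) v ⊆ (A.filter fun P => On (sh σ P) v).image (sh σ) := by
        intro P hP
        obtain ⟨a1, a2⟩ := mem_thru.1 hP
        obtain ⟨P, hP', rfl⟩ := mem_image.1 a1
        exact mem_image.2 ⟨P, mem_filter.2 ⟨hP', a2⟩, rfl⟩
      exact ((card_le_card h1).trans card_image_le).trans (hk _ (filter_subset _ _)
        (collinear_of_on σ v _ fun P hP => (mem_filter.1 (mem_coe.1 hP)).2)))
    (by rw [hcard]; exact h0) (by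
      rw [hcard]
      apply hle
      unfold t2
      apply card_le_card_of_forall_subsingleton
        (fun v q => q.1 ≠ q.2 ∧ On (sh σ q.1) v ∧ On (sh σ q.2) v)
      · intro v hv
        have hv2 := (mem_filter.1 hv).2
        obtain ⟨P, Q, hPQ, e⟩ := card_eq_two.1 hv2
        have hP : P ∈ thru (A.image (sh σ)) v := by rw [e]; simp
        have hQ : Q ∈ thru (A.image (sh σ)) v := by rw [e]; simp
        rw [mem_thru] at hP hQ
        obtain ⟨P, hP', rfl⟩ := mem_image.1 hP.1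
        obtain ⟨Q, hQ', rfl⟩ := mem_image.1 hQ.1
        have hne : P ≠ Q := fun h => hPQ (by rw [h])
        refine ⟨(P, Q), mem_sdiff.2 ⟨mem_product.2 ⟨hP', hQ'⟩, fun h => ?_⟩, hne, hP.2, hQ.2⟩
        obtain ⟨-, -, z, hz, z1, z2, z3⟩ := mem_filter.1 h
        have : sh σ z ∈ thru (A.image (sh σ)) v :=
          mem_thru.2 ⟨mem_image_of_mem _ hz, on_of_collinear σ v hne hP.2 hQ.2 z3⟩
        rw [e, mem_insert, mem_singleton] at this
        rcases this with h | h
        · exact z1 (sh_inj σ h)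
        · exact z2 (sh_inj σ h)
      · intro q _ v hv w hw
        exact line_unique (fun h => hv.2.1 (sh_inj σ h)) hv.2.2.1 hv.2.2.2 hw.2.2.1 hw.2.2.2) (by
      rw [hcard]
      apply hle
      rw [← diag_card]
      apply card_le_card
      intro q hq
      obtain ⟨a1, a2⟩ := mem_diag.1 hq
      exact mem_sdiff.2 ⟨mem_product.2 ⟨a1, a2 ▸ a1⟩, fun h => (mem_filter.1 h).2.1 a2⟩)
  let g : Fin 2 → Pl := ![MvPolynomial.X 1, MvPolynomial.X 0 + MvPolynomial.C σ * MvPolynomial.X 1]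
  have hev : ∀ (h : Pl) (x : ℝ × ℝ),
      MvPolynomial.eval ![x.1, x.2] (MvPolynomial.aeval g h) = ev h (sh σ x) := by
    intro h x
    induction h using MvPolynomial.induction_on with
    | C c => simp [ev]
    | add p q hp hq => rw [map_add, map_add, hp, hq]; simp [ev]
    | mul_X p i hp =>
      rw [map_mul, map_mul, hp, ev_mul]
      fin_cases i <;> simp [g, ev, sh]
  refine ⟨MvPolynomial.aeval g f, fun h => hf0 ?_, (totalDegree_aeval_lin g ?_ f).trans hf3, ?_⟩
  · apply MvPolynomial.funext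
    intro x
    have := hev f (x 1 - σ * x 0, x 0)
    rw [h] at this
    have hx : x = ![x 0, x 1] := by ext i; fin_cases i <;> simp
    rw [hx]
    simpa [ev, sh] using this.symm
  · intro i
    fin_cases i
    · simp [g]
    · simp only [g, Fin.mk_one, Matrix.cons_val_one, Matrix.cons_val_zero]
      refine (MvPolynomial.totalDegree_add _ _).trans (max_le (by simp) ?_)
      refine (MvPolynomial.totalDegree_mul _ _).trans ?_
      simp
  · rw [hcard] at hf
    refine hf.trans (Nat.cast_le.2 (le_trans (card_le_card ?_) (card_image_le (f := sh σ))))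
    intro P hP
    obtain ⟨a1, a2⟩ := mem_zs.1 hP
    obtain ⟨P, hP', rfl⟩ := mem_image.1 a1
    exact mem_image.2 ⟨P, mem_filter.2 ⟨hP', by rw [hev]; exact a2⟩, rfl⟩

end Pool.Agent.Results.MP_029dcd_co.NearlyAllRich
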